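import Mathlib

/-!
# Project DO: Doney's conjecture on the smoothness of scale functions
(S19425 of MP_79a0fa_pr: true; S19138 of MP_0b691a_pr: the conjecture is false without Gaussian part)
-/

set_option autoImplicit false

open MeasureTheory Filter Topology Set
open scoped ENNReal

namespace Pool.Agent.W844.DO

/-- causal functions -/
def Csl (u : ℝ → ℝ) : Prop := ∀ x, x ≤ 0 → u x = 0

/-- convolution -/
noncomputable def cv (u v : ℝ → ℝ) : ℝ → ℝ := fun x => ∫ y, u y * v (x - y)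

/-! ### generic statements -/

/-- convolution preserves smoothness away from zero -/
def S_ALG : Prop := ∀ (m : ℕ) (u v : ℝ → ℝ), Csl u → Csl v → Integrable u → Integrable v →
  ContDiffOn ℝ m u (Ioi 0) → ContDiffOn ℝ m v (Ioi 0) → ContDiffOn ℝ m (cv u v) (Ioi 0)

/-- existence of the resolvent -/
def S_EX : Prop := ∀ k : ℝ → ℝ, Csl k → Integrable k → ∫ x, |k x| < 1 →
  ∃ r : ℝ → ℝ, Csl r ∧ Integrable r ∧ ∀ᵐ x, r x + cv k r x = k x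

/-- the resolvent has the same smoothness away from zero as the kernel, if `(x k)'` is integrable -/
def S_RES : Prop := ∀ k r k1 : ℝ → ℝ, Csl k → Csl r → Csl k1 → Integrable k → Integrable r →
  Integrable k1 → Integrable (fun x => x * k x) → Integrable (fun x => x * r x) →
  (∀ᵐ x, r x + cv k r x = k x) → (∀ x, 0 < x → x * k x = ∫ y in (0 : ℝ)..x, k1 y) →
  ∃ ρ : ℝ → ℝ, ContinuousOn ρ (Ioi 0) ∧ (∀ᵐ x, 0 < x → r x = ρ x) ∧
    ∀ m : ℕ, (ContDiffOn ℝ m k (Ioi 0) ↔ ContDiffOn ℝ m ρ (Ioi 0))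

/-- uniqueness for Laplace transforms -/
def S_LT : Prop := ∀ f g : ℝ → ℝ, ContinuousOn f (Ioi 0) → ContinuousOn g (Ioi 0) →
  (∃ β₀ : ℝ, ∀ β : ℝ, β₀ < β → IntegrableOn (fun x => Real.exp (-(β * x)) * f x) (Ioi 0) ∧
    IntegrableOn (fun x => Real.exp (-(β * x)) * g x) (Ioi 0) ∧
    ∫ x in Ioi (0 : ℝ), Real.exp (-(β * x)) * f x = ∫ x in Ioi (0 : ℝ), Real.exp (-(β * x)) * g x) →
  ∀ x, 0 < x → f x = g x

/-! ### Gaussian case -/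

/-- the tail -/
noncomputable def tl (μ : Measure ℝ) (x : ℝ) : ℝ := (μ (Iio (-x))).toReal

/-- the integrated tail -/
noncomputable def K0 (μ : Measure ℝ) (x : ℝ) : ℝ := ∫ y in x..1, tl μ y

/-- assumptions on a Levy measure on the negative half line -/
def Lev (μ : Measure ℝ) : Prop := μ (Ici 0) = 0 ∧ ∫⁻ x, ENNReal.ofReal (min 1 (x ^ 2)) ∂μ < ⊤

/-- facts on the integrated tail -/
def S_K : Prop := ∀ μ : Measure ℝ, Lev μ →
  ContinuousOn (K0 μ) (Ioi 0) ∧ IntegrableOn (K0 μ) (Ioc 0 1) ∧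
  IntegrableOn (fun y => y * tl μ y) (Ioc 0 1) ∧
  (∀ x, 1 ≤ x → |K0 μ x| ≤ tl μ 1 * x) ∧ (∀ x, 1 ≤ x → 0 ≤ tl μ x ∧ tl μ x ≤ tl μ 1) ∧
  (∀ x, 0 < x → IntervalIntegrable (fun y => K0 μ y - y * tl μ y) volume 0 x ∧
    x * K0 μ x = ∫ y in (0 : ℝ)..x, (K0 μ y - y * tl μ y)) ∧
  ∀ m : ℕ, (ContDiffOn ℝ ((m + 1 : ℕ) : ℕ∞) (K0 μ) (Ioi 0) ↔
    ContDiffOn ℝ ((m : ℕ) : ℕ∞) (tl μ) (Ioi 0))

/-- the Laplace exponent through the integrated tail -/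
def S_PSI : Prop := ∀ μ : Measure ℝ, Lev μ → ∀ β : ℝ, 0 < β →
  IntegrableOn (fun x => Real.exp (-(β * x)) * K0 μ x) (Ioi 0) ∧
  ∫ x, (Real.exp (β * x) - 1 - (Set.Ioi (-1 : ℝ)).indicator (fun y => β * y) x) ∂μ =
    β ^ 2 * (∫ x in Ioi (0 : ℝ), Real.exp (-(β * x)) * K0 μ x) - β * (μ (Iic (-1))).toReal

/-- the frozen statement S19425 -/
def S_A : Prop :=
  ∀ (μ : MeasureTheory.Measure ℝ) (a σ : ℝ) (W : ℝ → ℝ),
    μ (Set.Ici 0) = 0 →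
    ∫⁻ x, ENNReal.ofReal (min 1 (x ^ 2)) ∂μ < ⊤ →
    σ ≠ 0 →
    ContinuousOn W (Set.Ioi 0) →
    (∃ β₀ : ℝ, ∀ β : ℝ, β₀ < β →
      MeasureTheory.IntegrableOn (fun x => Real.exp (-(β * x)) * W x) (Set.Ioi 0) ∧
      ∫ x in Set.Ioi (0 : ℝ), Real.exp (-(β * x)) * W x =
        1 / (-(a * β) + σ ^ 2 * β ^ 2 / 2 +
          ∫ x, (Real.exp (β * x) - 1 - (Set.Ioi (-1 : ℝ)).indicator (fun y => β * y) x) ∂μ)) →
    ∀ k : ℕ,
      (ContDiffOn ℝ (((k + 3 : ℕ) : ℕ∞) : WithTop ℕ∞) W (Set.Ioi 0) ↔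
        ContDiffOn ℝ (((k : ℕ) : ℕ∞) : WithTop ℕ∞) (fun y => (μ (Set.Iio (-y))).toReal) (Set.Ioi 0))

/-! ### the counterexample without Gaussian part -/

open scoped Classical in
/-- `x^(1/4) / Γ(5/4)` -/
noncomputable def Eq (x : ℝ) : ℝ := if 0 < x then x ^ ((1 : ℝ) / 4) / Real.Gamma (5 / 4) else 0

open scoped Classical in
/-- density of the extra jumps -/
noncomputable def rh (y : ℝ) : ℝ := if 1 < y ∧ y < 2 then (y - 1) ^ (-(3 : ℝ) / 4) else 0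

open scoped Classical in
/-- the Levy measure: density `|x|^(-9/4) + rh |x|` on the negative half line -/
noncomputable def nu : Measure ℝ :=
  volume.withDensity fun x => ENNReal.ofReal (if x < 0 then (-x) ^ (-(9 : ℝ) / 4) + rh (-x) else 0)

noncomputable def Cc : ℝ := ∫ u in Ioi (0 : ℝ), (Real.exp (-u) - 1 + u) * u ^ (-(9 : ℝ) / 4)

def S_NU : Prop := nu (Ici 0) = 0 ∧ (∫⁻ x, ENNReal.ofReal (min 1 (x ^ 2)) ∂nu) < ⊤ ∧
  (∫⁻ x in Ioo (-1 : ℝ) 0, ENNReal.ofReal |x| ∂nu) = ⊤ ∧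
  ContinuousOn (fun y => (nu (Iio (-y))).toReal) (Ioi 0) ∧ 0 < Cc ∧
  ∀ β : ℝ, 0 < β → ∫ x, (Real.exp (β * x) - 1 - (if -1 < x then β * x else 0)) ∂nu =
    Cc * β ^ ((5 : ℝ) / 4) - 4 * β + (∫ y, rh y * Real.exp (-(β * y))) - 4

/-- Volterra equation with continuous data -/
def S_VOL : Prop := ∀ (e k : ℝ → ℝ) (A b : ℝ), Continuous e → Continuous k → Csl e → Csl k →
  (∀ x, |e x| ≤ A * Real.exp (b * x)) → (∀ x, |k x| ≤ A * Real.exp (b * x)) →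
  ∃ (W : ℝ → ℝ) (A' b' : ℝ), Continuous W ∧ Csl W ∧ (∀ x, |W x| ≤ A' * Real.exp (b' * x)) ∧
    ∀ x, W x = e x + cv k W x

/-- the equation for the scale function -/
def S_W : Prop := ∃ (W : ℝ → ℝ) (A b : ℝ), Continuous W ∧ Csl W ∧
  (∀ x, |W x| ≤ A * Real.exp (b * x)) ∧
  (∀ x, Cc * W x = Eq x + 4 * cv Eq W x - cv rh (cv Eq W) x) ∧
  ∃ β₀ : ℝ, ∀ β : ℝ, β₀ < β → IntegrableOn (fun x => Real.exp (-β * x) * W x) (Ioi 0) ∧
    ∫ x in Ioi (0 : ℝ), Real.exp (-β * x) * W x =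
      1 / (Cc * β ^ ((5 : ℝ) / 4) + (∫ y, rh y * Real.exp (-(β * y))) - 4)

/-- the solution is not `C^2` at `1` -/
def S_SING : Prop := ∀ (W : ℝ → ℝ) (A b : ℝ), 0 < Cc → Continuous W → Csl W →
  (∀ x, |W x| ≤ A * Real.exp (b * x)) →
  (∀ x, Cc * W x = Eq x + 4 * cv Eq W x - cv rh (cv Eq W) x) → ¬ ContDiffOn ℝ 2 W (Ioi 0)

end Pool.Agent.W844.DO
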